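import Mathlib

/-!
# Finitely presented groups: subgroups of finite index, and groups with finitely many conjugacy classes
-/

set_option autoImplicit false

namespace Pool.Agent.R387.FM

universe u

/-- a finitely generated free group has a finite basis -/
theorem finite_of_fg {β : Type u} (h : Group.FG (FreeGroup β)) : Finite β := by
  classical
  obtain ⟨S, hS, hSf⟩ := (Group.fg_iff).1 h
  by_contra hinf
  rw [not_finite_iff_infinite] at hinf
  let T : Set β := ⋃ w ∈ S, {b | b ∈ (FreeGroup.toWord w).map Prod.fst}
  have hT : T.Finite := hSf.biUnion fun w _ => List.finite_toSet _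
  obtain ⟨b, hb⟩ := hT.infinite_compl.nonempty
  let f : FreeGroup β →* Multiplicative ℤ :=
    FreeGroup.lift (fun x => if x = b then Multiplicative.ofAdd 1 else 1)
  have hfS : ∀ w ∈ S, f w = 1 := by
    intro w hw
    have h1 : ∀ x ∈ FreeGroup.toWord w, x.1 ≠ b := by
      intro x hx hxb
      apply hb
      simp only [T, Set.mem_iUnion, Set.mem_ofPred_eq, List.mem_map]
      exact ⟨w, hw, x, hx, hxb⟩
    have h2 : w = FreeGroup.mk (FreeGroup.toWord w) := FreeGroup.mk_toWord.symm
    rw [h2]
    simp only [f, FreeGroup.lift_mk]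
    apply List.prod_eq_one
    intro y hy
    rw [List.mem_map] at hy
    obtain ⟨x, hx, rfl⟩ := hy
    rw [if_neg (h1 x hx)]
    cases x.2 <;> simp
  have hle : Subgroup.closure S ≤ f.ker := (Subgroup.closure_le _).2 fun w hw => hfS w hw
  rw [hS] at hle
  have h3 : f (FreeGroup.of b) = 1 := hle (Subgroup.mem_top _)
  simp only [f, FreeGroup.lift_apply_of] at h3
  have h4 : (1 : ℤ) = 0 := by
    have := congrArg Multiplicative.toAdd h3
    simp at this
  omega

/-- finitely generated free groups are finitely presented -/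
theorem fp_free {F : Type u} [Group F] [IsFreeGroup F] [hF : Group.FG F] :
    Group.IsFinitelyPresented F := by
  have e := IsFreeGroup.toFreeGroup F
  have h1 : Group.FG (FreeGroup (IsFreeGroup.Generators F)) :=
    Group.fg_of_surjective (f := e.toMonoidHom) e.surjective
  have h2 := finite_of_fg h1
  exact Group.IsFinitelyPresented.equiv e.symm

/-- right coset representatives -/
theorem exists_reps {G : Type u} [Group G] (H : Subgroup G) (g : G) :
    ∃ q : G ⧸ H, g * (Quotient.out q) ∈ H := by
  refine ⟨(g⁻¹ : G), ?_⟩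
  have h1 : (QuotientGroup.mk (Quotient.out (QuotientGroup.mk g⁻¹ : G ⧸ H)) : G ⧸ H) =
      QuotientGroup.mk g⁻¹ := Quotient.out_eq _
  rw [eq_comm, QuotientGroup.eq] at h1
  simpa using h1

/-- Subgroups of finite index in finitely presented groups are finitely presented. -/
theorem fp_finiteIndex {G : Type u} [Group G] [hG : Group.IsFinitelyPresented G] (H : Subgroup G)
    [hH : H.FiniteIndex] : Group.IsFinitelyPresented H := by
  classical
  obtain ⟨n, φ, hφ, S, hS, hker⟩ := hG.out
  let H' : Subgroup (FreeGroup (Fin n)) := H.comap φ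
  have hH' : H'.FiniteIndex := ⟨by
    rw [Subgroup.index_comap_of_surjective H hφ]
    exact hH.index_ne_zero⟩
  have hfg : Group.FG H' := Subgroup.fg_of_index_ne_zero _
  have hfp : Group.IsFinitelyPresented H' := fp_free
  have hker' : φ.ker ≤ H' := by
    intro x hx
    change φ x ∈ H
    rw [MonoidHom.mem_ker.1 hx]
    exact H.one_mem
  refine Group.IsFinitelyPresented.of_surjective (φ.subgroupComap H)
    (MonoidHom.subgroupComap_surjective_of_surjective φ H hφ) ?_
  let T : Set H' := {x | ∃ q : FreeGroup (Fin n) ⧸ H', ∃ s ∈ S,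
    (x : FreeGroup (Fin n)) = (Quotient.out q)⁻¹ * s * Quotient.out q}
  refine ⟨T, ?_, ?_⟩
  · have h1 : (Set.univ : Set (FreeGroup (Fin n) ⧸ H')).Finite := Set.finite_univ
    have h2 : ((fun p : (FreeGroup (Fin n) ⧸ H') × FreeGroup (Fin n) =>
      (Quotient.out p.1)⁻¹ * p.2 * Quotient.out p.1) '' (Set.univ ×ˢ S)).Finite :=
      (h1.prod hS).image _
    refine Set.Finite.of_finite_image (h2.subset ?_) (Set.injOn_of_injective Subtype.val_injective)
    rintro _ ⟨x, ⟨q, s, hs, hx⟩, rfl⟩
    exact ⟨(q, s), ⟨Set.mem_univ _, hs⟩, hx.symm⟩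
  · apply le_antisymm
    · apply Subgroup.normalClosure_le_normal
      rintro x ⟨q, s, hs, hx⟩
      have hs' : s ∈ φ.ker := by
        rw [← hker]
        exact Subgroup.subset_normalClosure hs
      have h1 : φ (x : FreeGroup (Fin n)) = 1 := by
        rw [hx, map_mul, map_mul, MonoidHom.mem_ker.1 hs']
        simp
      change φ.subgroupComap H x = 1
      exact Subtype.ext h1
    · intro x hx
      have hx1 : (x : FreeGroup (Fin n)) ∈ φ.ker := congrArg Subtype.val hx
      have key : φ.ker ≤ (Subgroup.normalClosure T).map H'.subtype := by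
        rw [← hker]
        unfold Subgroup.normalClosure
        rw [Subgroup.closure_le]
        intro y hy
        rw [Group.mem_conjugatesOfSet_iff] at hy
        obtain ⟨s, hs, hy⟩ := hy
        obtain ⟨g, rfl⟩ := isConj_iff.1 hy
        obtain ⟨q, hq⟩ := exists_reps H' g
        have hs' : s ∈ φ.ker := by
          rw [← hker]
          exact Subgroup.subset_normalClosure hs
        have hz : (Quotient.out q)⁻¹ * s * Quotient.out q ∈ H' := by
          apply hker'
          rw [MonoidHom.mem_ker, map_mul, map_mul, MonoidHom.mem_ker.1 hs']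
          simp
        let z : H' := ⟨_, hz⟩
        let h : H' := ⟨_, hq⟩
        have hzT : z ∈ Subgroup.normalClosure T := Subgroup.subset_normalClosure ⟨q, s, hs, rfl⟩
        have h2 : h * z * h⁻¹ ∈ Subgroup.normalClosure T :=
          Subgroup.normalClosure_normal.conj_mem z hzT h
        refine ⟨h * z * h⁻¹, h2, ?_⟩
        change (g * Quotient.out q) * ((Quotient.out q)⁻¹ * s * Quotient.out q) *
          (g * Quotient.out q)⁻¹ = g * s * g⁻¹
        group
      obtain ⟨y, hy, hyx⟩ := key hx1
      have : y = x := Subtype.ext hyx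
      exact this ▸ hy

/-! ### Groups with finitely many conjugacy classes -/

/-- there are only finitely many normal subgroups -/
theorem finite_normal {G : Type u} [Group G] [hG : Finite (ConjClasses G)] :
    {N : Subgroup G | N.Normal}.Finite := by
  have h1 : Finite (Set (ConjClasses G)) := inferInstance
  refine Set.Finite.of_finite_image (f := fun N : Subgroup G => ConjClasses.mk '' (N : Set G))
    (Set.toFinite _) ?_
  intro N hN M hM h
  have hmem : ∀ (L : Subgroup G), L.Normal → ∀ x : G,
      (ConjClasses.mk x ∈ ConjClasses.mk '' (L : Set G)) ↔ x ∈ L := by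
    intro L hL x
    constructor
    · rintro ⟨y, hy, hyx⟩
      rw [ConjClasses.mk_eq_mk_iff_isConj] at hyx
      obtain ⟨g, rfl⟩ := isConj_iff.1 hyx
      exact hL.conj_mem y hy g
    · intro hx
      exact ⟨x, hx, rfl⟩
  ext x
  rw [← hmem N hN, ← hmem M hM]
  exact (Set.ext_iff.1 h _)

/-- normal subgroups are normally generated by finitely many elements -/
theorem fng_of_normal {G : Type u} [Group G] [hG : Finite (ConjClasses G)] (N : Subgroup G)
    (hN : N.Normal) : N.IsFinitelyNormallyGenerated := by
  refine ⟨{x | x ∈ N ∧ ∃ c : ConjClasses G, x = Quotient.out c}, ?_, ?_⟩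
  · refine (Set.finite_range (fun c : ConjClasses G => (Quotient.out c : G))).subset ?_
    rintro x ⟨-, c, rfl⟩
    exact ⟨c, rfl⟩
  · apply le_antisymm
    · exact Subgroup.normalClosure_le_normal fun x hx => hx.1
    · intro x hx
      have h1 : IsConj (Quotient.out (ConjClasses.mk x)) x := by
        rw [← ConjClasses.mk_eq_mk_iff_isConj]
        exact Quotient.out_eq (ConjClasses.mk x)
      obtain ⟨y, hy⟩ : ∃ y : G, y = Quotient.out (ConjClasses.mk x) := ⟨_, rfl⟩
      rw [← hy] at h1
      obtain ⟨g, hg⟩ := isConj_iff.1 h1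
      have h2 : y ∈ N := by
        have : y = g⁻¹ * x * (g⁻¹)⁻¹ := by
          rw [← hg]; group
        rw [this]
        exact hN.conj_mem x hx _
      have h3 : y ∈ Subgroup.normalClosure
          {x | x ∈ N ∧ ∃ c : ConjClasses G, x = (Quotient.out c : G)} :=
        Subgroup.subset_normalClosure ⟨h2, _, hy⟩
      have h4 := Subgroup.normalClosure_normal.conj_mem _ h3 g
      rwa [hg] at h4

/-- quotients have finitely many conjugacy classes -/
theorem finite_conj_quotient {G : Type u} [Group G] [hG : Finite (ConjClasses G)] (N : Subgroup G)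
    [N.Normal] : Finite (ConjClasses (G ⧸ N)) := by
  refine Finite.of_surjective (ConjClasses.map (QuotientGroup.mk' N)) ?_
  exact ConjClasses.map_surjective (QuotientGroup.mk'_surjective N)

/-- subgroups of finite index have finitely many conjugacy classes -/
theorem finite_conj_subgroup {G : Type u} [Group G] [hG : Finite (ConjClasses G)] (H : Subgroup G)
    [hH : H.FiniteIndex] : Finite (ConjClasses H) := by
  classical
  let f : ConjClasses G × (G ⧸ H) → ConjClasses H := fun p =>
    if h : (Quotient.out p.2)⁻¹ * (Quotient.out p.1 : G) * Quotient.out p.2 ∈ H then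
      ConjClasses.mk ⟨_, h⟩ else 1
  refine Finite.of_surjective f ?_
  intro c
  obtain ⟨x, rfl⟩ := ConjClasses.exists_rep c
  have h1 : IsConj (Quotient.out (ConjClasses.mk (x : G))) (x : G) := by
    rw [← ConjClasses.mk_eq_mk_iff_isConj]
    exact Quotient.out_eq (ConjClasses.mk (x : G))
  obtain ⟨g, hg⟩ := isConj_iff.1 h1
  obtain ⟨q, hq⟩ := exists_reps H g
  have h2 : (Quotient.out q)⁻¹ * (Quotient.out (ConjClasses.mk (x : G)) : G) * Quotient.out q =
      (g * Quotient.out q)⁻¹ * x * (g * Quotient.out q) := by
    generalize (Quotient.out (ConjClasses.mk (x : G)) : G) = y at hg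
    rw [← hg]; group
  have h3 : (Quotient.out q)⁻¹ * (Quotient.out (ConjClasses.mk (x : G)) : G) *
      Quotient.out q ∈ H := by
    rw [h2]
    exact H.mul_mem (H.mul_mem (H.inv_mem hq) x.2) hq
  refine ⟨(ConjClasses.mk (x : G), q), ?_⟩
  simp only [f]
  rw [dif_pos h3, ConjClasses.mk_eq_mk_iff_isConj, isConj_iff]
  refine ⟨⟨_, hq⟩, Subtype.ext ?_⟩
  change (g * Quotient.out q) * ((Quotient.out q)⁻¹ * (Quotient.out (ConjClasses.mk (x : G)) : G) *
    Quotient.out q) * (g * Quotient.out q)⁻¹ = x
  rw [h2]
  group

end Pool.Agent.R387.FM
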