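import Mathlib
import Pool.Agent.R673.MG.Types

/-!
# Growth of groups with finitely many conjugacy classes
-/

set_option autoImplicit false

open scoped Pointwise

namespace Pool.Agent.R387.FM

universe u

variable {G : Type u} [Group G]

/-- the ball of radius `n` -/
def ball (S : Finset G) (n : ℕ) : Set G := ((S : Set G) ∪ (S : Set G)⁻¹ ∪ {1}) ^ n

theorem ball_finite (S : Finset G) (n : ℕ) : (ball S n).Finite := by
  unfold ball
  have h : ((S : Set G) ∪ (S : Set G)⁻¹ ∪ {1}).Finite :=
    (S.finite_toSet.union S.finite_toSet.inv).union (Set.finite_singleton _)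
  induction n with
  | zero => rw [pow_zero]; exact Set.finite_one
  | succ n ih => rw [pow_succ]; exact ih.mul h

theorem ball_mul {S : Finset G} {n m : ℕ} {a b : G} (ha : a ∈ ball S n) (hb : b ∈ ball S m) :
    a * b ∈ ball S (n + m) := by
  unfold ball at *
  rw [pow_add]
  exact Set.mul_mem_mul ha hb

theorem one_mem_ball (S : Finset G) (n : ℕ) : (1 : G) ∈ ball S n := by
  induction n with
  | zero => unfold ball; rw [pow_zero]; exact Set.mem_one.2 rfl
  | succ n ih =>
    have h : (1 : G) ∈ ball S 1 := by unfold ball; rw [pow_one]; exact Or.inr rfl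
    simpa using ball_mul ih h

theorem ball_mono {S : Finset G} {n m : ℕ} (h : n ≤ m) : ball S n ⊆ ball S m := by
  intro x hx
  obtain ⟨k, rfl⟩ := Nat.exists_eq_add_of_le h
  simpa using ball_mul hx (one_mem_ball S k)

theorem exists_ball {S : Finset G} (hS : Subgroup.closure (S : Set G) = ⊤) (g : G) :
    ∃ n, g ∈ ball S n := by
  have hg : g ∈ Subgroup.closure (S : Set G) := hS ▸ Subgroup.mem_top g
  suffices h : (∃ n, g ∈ ball S n) ∧ ∃ n, g⁻¹ ∈ ball S n from h.1
  induction hg using Subgroup.closure_induction with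
  | mem x hx =>
    refine ⟨⟨1, ?_⟩, ⟨1, ?_⟩⟩
    · unfold ball; rw [pow_one]; exact Or.inl (Or.inl hx)
    · unfold ball; rw [pow_one]; exact Or.inl (Or.inr (by simpa using hx))
  | one => exact ⟨⟨0, one_mem_ball S 0⟩, ⟨0, by rw [inv_one]; exact one_mem_ball S 0⟩⟩
  | mul x y _ _ hx hy =>
    obtain ⟨⟨a, ha⟩, ⟨a', ha'⟩⟩ := hx
    obtain ⟨⟨b, hb⟩, ⟨b', hb'⟩⟩ := hy
    exact ⟨⟨a + b, ball_mul ha hb⟩, ⟨b' + a', by rw [mul_inv_rev]; exact ball_mul hb' ha'⟩⟩
  | inv x _ hx => exact ⟨hx.2, by rw [inv_inv]; exact hx.1⟩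

/-- powers of a distorted element -/
theorem powers_mem {S : Finset G} (hS : Subgroup.closure (S : Set G) = ⊤) {g t : G} {m n : ℕ}
    (hm : 0 < m) (hmn : m < n) (h : t * g ^ m * t⁻¹ = g ^ n) :
    ∃ C : ℕ, 0 < C ∧ ∀ k N : ℕ, (N : ℝ) < ((n : ℝ) / m) ^ k → g ^ N ∈ ball S (C * k) := by
  obtain ⟨a, ha⟩ := exists_ball hS t
  obtain ⟨a', ha'⟩ := exists_ball hS t⁻¹
  choose b hb using fun r : ℕ => exists_ball hS (g ^ r)
  let B := (Finset.range n).sup b
  have hB : ∀ r < n, g ^ r ∈ ball S B := fun r hr =>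
    ball_mono (Finset.le_sup (Finset.mem_range.2 hr)) (hb r)
  refine ⟨a + a' + B + 1, by omega, ?_⟩
  have hm' : (0 : ℝ) < m := by exact_mod_cast hm
  have hn' : (0 : ℝ) < n := by exact_mod_cast hm.trans hmn
  intro k
  induction k with
  | zero =>
    intro N hN
    have : N = 0 := by
      rw [pow_zero] at hN
      have : N < 1 := by exact_mod_cast hN
      omega
    rw [this, pow_zero]
    exact one_mem_ball S _
  | succ k ih =>
    intro N hN
    have h1 : ((m * (N / n) : ℕ) : ℝ) < ((n : ℝ) / m) ^ k := by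
      have h2 : ((n * (N / n) : ℕ) : ℝ) ≤ N := by exact_mod_cast Nat.mul_div_le N n
      push_cast at h2 ⊢
      rw [pow_succ] at hN
      have h3 : ((m : ℝ) * ((N / n : ℕ) : ℝ)) * ((n : ℝ) / m) = n * ((N / n : ℕ) : ℝ) := by
        field_simp
      have h4 : ((m : ℝ) * ((N / n : ℕ) : ℝ)) * ((n : ℝ) / m) < ((n : ℝ) / m) ^ k * ((n : ℝ) / m) := by
        rw [h3]
        exact lt_of_le_of_lt h2 hN
      exact lt_of_mul_lt_mul_right h4 (by positivity)
    have h5 := ih _ h1
    have h6 : g ^ N = t * g ^ (m * (N / n)) * t⁻¹ * g ^ (N % n) := by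
      rw [pow_mul, ← conj_pow, h, ← pow_mul, ← pow_add, Nat.div_add_mod]
    have h7 := ball_mul (ball_mul (ball_mul ha h5) ha')
      (hB (N % n) (Nat.mod_lt _ (hm.trans hmn)))
    rw [← h6] at h7
    refine ball_mono ?_ h7
    rw [Nat.mul_succ]
    omega

theorem exp_growth [Infinite G] {S : Finset G} (hS : Subgroup.closure (S : Set G) = ⊤) {g t : G}
    (hg : ¬ IsOfFinOrder g) {m n : ℕ}
    (hm : 0 < m) (hmn : m < n) (h : t * g ^ m * t⁻¹ = g ^ n) :
    ∃ c : ℝ, 0 < c ∧ ∀ r : ℕ, Real.exp (c * r) ≤ ((ball S r).ncard : ℝ) := by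
  obtain ⟨C, hC, hk⟩ := powers_mem hS hm hmn h
  have hm' : (0 : ℝ) < m := by exact_mod_cast hm
  have hmn' : (m : ℝ) < n := by exact_mod_cast hmn
  set l : ℝ := (n : ℝ) / m with hl
  have hl1 : 1 < l := (one_lt_div hm').2 hmn'
  have hl0 : 0 < l := by linarith
  have hlog : 0 < Real.log l := Real.log_pos hl1
  have hC' : (0 : ℝ) < C := by exact_mod_cast hC
  have hinj : Function.Injective (fun k : ℕ => g ^ k) := by
    intro a b hab
    have h1 : g ^ (a : ℤ) = g ^ (b : ℤ) := by
      rw [zpow_natCast, zpow_natCast]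
      exact hab
    exact_mod_cast R673.MG.zpow_inj_of hg h1
  have hcard : ∀ k : ℕ, l ^ k ≤ ((ball S (C * k)).ncard : ℝ) := by
    intro k
    have h1 : (fun N : ℕ => g ^ N) '' (Finset.range ⌈l ^ k⌉₊ : Finset ℕ) ⊆ ball S (C * k) := by
      rintro _ ⟨N, hN, rfl⟩
      rw [Finset.mem_coe, Finset.mem_range] at hN
      exact hk k N (Nat.lt_ceil.1 hN)
    have h2 := Set.ncard_le_ncard h1 (ball_finite S _)
    rw [Set.ncard_image_of_injective _ hinj, Set.ncard_coe_finset, Finset.card_range] at h2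
    exact (Nat.le_ceil _).trans (by exact_mod_cast h2)
  have hmono : ∀ {a b : ℕ}, a ≤ b → ((ball S a).ncard : ℝ) ≤ ((ball S b).ncard : ℝ) := by
    intro a b hab
    exact_mod_cast Set.ncard_le_ncard (ball_mono hab) (ball_finite S _)
  have htwo : (2 : ℝ) ≤ ((ball S 1).ncard : ℝ) := by
    obtain ⟨s, hs, hs1⟩ : ∃ s ∈ S, s ≠ 1 := by
      by_contra hcon
      push Not at hcon
      have h1 : Subgroup.closure (S : Set G) ≤ ⊥ := by
        rw [Subgroup.closure_le]
        intro x hx
        exact Subgroup.mem_bot.2 (hcon x hx)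
      rw [hS, top_le_iff] at h1
      exact bot_ne_top h1
    have h1 : ({1, s} : Set G) ⊆ ball S 1 := by
      unfold ball
      rw [pow_one]
      intro x hx
      rcases hx with rfl | rfl
      · exact Or.inr rfl
      · exact Or.inl (Or.inl hs)
    have h2 := Set.ncard_le_ncard h1 (ball_finite S _)
    rw [Set.ncard_pair (Ne.symm hs1)] at h2
    exact_mod_cast h2
  refine ⟨min (Real.log l / (2 * C)) (Real.log 2 / C), lt_min (by positivity)
    (div_pos (Real.log_pos (by norm_num)) hC'), fun r => ?_⟩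
  rcases Nat.eq_zero_or_pos r with rfl | hr
  · have h1 : ball S 0 = {1} := by unfold ball; rw [pow_zero]; rfl
    rw [h1, Set.ncard_singleton]
    simp
  by_cases hrC : r < C
  · have h1 : Real.exp (min (Real.log l / (2 * C)) (Real.log 2 / C) * r) ≤ 2 := by
      rw [← Real.exp_log (show (0 : ℝ) < 2 by norm_num)]
      apply Real.exp_le_exp.2
      rw [Real.exp_log (by norm_num)]
      have hlog2 : 0 < Real.log 2 := Real.log_pos (by norm_num)
      calc min (Real.log l / (2 * C)) (Real.log 2 / C) * r ≤ Real.log 2 / C * r :=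
            mul_le_mul_of_nonneg_right (min_le_right _ _) (by positivity)
        _ ≤ Real.log 2 / C * C := by
            apply mul_le_mul_of_nonneg_left _ (by positivity)
            exact_mod_cast hrC.le
        _ = Real.log 2 := by field_simp
    exact h1.trans (htwo.trans (hmono hr))
  · push Not at hrC
    have hk1 : 1 ≤ r / C := (Nat.one_le_div_iff hC).2 hrC
    have h2 : r < C * (r / C) + C := by
      have := Nat.lt_div_mul_add hC (a := r)
      rw [mul_comm]
      exact this
    have h3 : (r : ℝ) ≤ 2 * C * ((r / C : ℕ) : ℝ) := by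
      have h4 : r ≤ 2 * C * (r / C) := by nlinarith
      exact_mod_cast h4
    have h5 : Real.exp (min (Real.log l / (2 * C)) (Real.log 2 / C) * r) ≤ l ^ (r / C) := by
      rw [← Real.rpow_natCast, Real.rpow_def_of_pos hl0]
      apply Real.exp_le_exp.2
      calc min (Real.log l / (2 * C)) (Real.log 2 / C) * r ≤ Real.log l / (2 * C) * r :=
            mul_le_mul_of_nonneg_right (min_le_left _ _) (by positivity)
        _ ≤ Real.log l / (2 * C) * (2 * C * ((r / C : ℕ) : ℝ)) :=
            mul_le_mul_of_nonneg_left h3 (by positivity)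
        _ = Real.log l * ((r / C : ℕ) : ℝ) := by field_simp
    refine h5.trans ((hcard _).trans (hmono ?_))
    exact Nat.mul_div_le r C

/-- An infinite finitely generated group with finitely many conjugacy classes has bounded exponent
or exponential growth. -/
theorem exponent_or_exp [Infinite G] (hG : Finite (ConjClasses G)) {S : Finset G}
    (hS : Subgroup.closure (S : Set G) = ⊤) :
    (∃ n : ℕ, 1 ≤ n ∧ ∀ g : G, g ^ n = 1) ∨
      ∃ c : ℝ, 0 < c ∧ ∀ r : ℕ, Real.exp (c * r) ≤ ((ball S r).ncard : ℝ) := by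
  classical
  by_cases htor : ∀ g : G, IsOfFinOrder g
  · left
    have hfin := Fintype.ofFinite (ConjClasses G)
    refine ⟨∏ c : ConjClasses G, orderOf (Quotient.out c : G), ?_, ?_⟩
    · exact Nat.one_le_iff_ne_zero.2 (Finset.prod_ne_zero_iff.2 fun c _ => (htor _).orderOf_pos.ne')
    · intro g
      have h1 : IsConj (Quotient.out (ConjClasses.mk g)) g := by
        rw [← ConjClasses.mk_eq_mk_iff_isConj]
        exact Quotient.out_eq (ConjClasses.mk g)
      have h2 : orderOf (Quotient.out (ConjClasses.mk g) : G) ∣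
          ∏ c : ConjClasses G, orderOf (Quotient.out c : G) :=
        Finset.dvd_prod_of_mem (fun c : ConjClasses G => orderOf (Quotient.out c : G))
          (Finset.mem_univ _)
      obtain ⟨y, hy⟩ : ∃ y : G, y = Quotient.out (ConjClasses.mk g) := ⟨_, rfl⟩
      rw [← hy] at h1 h2
      obtain ⟨t, ht⟩ := isConj_iff.1 h1
      have h3 := orderOf_dvd_iff_pow_eq_one.1 h2
      rw [← ht, conj_pow, h3]
      simp
  · right
    push Not at htor
    obtain ⟨g, hg⟩ := htor
    obtain ⟨i, j, hij, he⟩ := Finite.exists_ne_map_eq_of_infinite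
      (fun k : ℕ => ConjClasses.mk (g ^ (k + 1)))
    wlog hlt : i < j generalizing i j
    · exact this j i hij.symm he.symm (lt_of_le_of_ne (not_lt.1 hlt) hij.symm)
    rw [ConjClasses.mk_eq_mk_iff_isConj] at he
    obtain ⟨t, ht⟩ := isConj_iff.1 he
    exact exp_growth hS hg (Nat.succ_pos i) (Nat.succ_lt_succ hlt) ht

end Pool.Agent.R387.FM
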