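import Pool.Agent.R387.FM.Fp
import Pool.Agent.R673.MG.Types

/-!
# Simple monsters
-/

set_option autoImplicit false

namespace Pool.Agent.R387.FM

universe u

/-! ### Quotients by maximal normal subgroups -/

theorem simple_quotient {H : Type u} [Group H] (K : Subgroup H) [hK : K.Normal] (hne : K ≠ ⊤)
    (hmax : ∀ M : Subgroup H, M.Normal → K ≤ M → M = K ∨ M = ⊤) : IsSimpleGroup (H ⧸ K) := by
  have h1 : Nontrivial (H ⧸ K) := by
    rw [← not_subsingleton_iff_nontrivial]
    intro hs
    apply hne
    rw [eq_top_iff]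
    intro x _
    have h2 : (QuotientGroup.mk x : H ⧸ K) = QuotientGroup.mk 1 := Subsingleton.elim _ _
    rw [QuotientGroup.eq] at h2
    have h3 := K.inv_mem h2
    simpa using h3
  refine { exists_pair_ne := h1.exists_pair_ne, eq_bot_or_eq_top_of_normal := ?_ }
  intro M hM
  have hsurj := QuotientGroup.mk'_surjective K
  have h2 : K ≤ M.comap (QuotientGroup.mk' K) := by
    intro x hx
    change QuotientGroup.mk' K x ∈ M
    have : QuotientGroup.mk' K x = 1 := by
      rw [← MonoidHom.mem_ker, QuotientGroup.ker_mk']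
      exact hx
    rw [this]
    exact M.one_mem
  have h3 : M = (M.comap (QuotientGroup.mk' K)).map (QuotientGroup.mk' K) :=
    (Subgroup.map_comap_eq_self_of_surjective hsurj M).symm
  rcases hmax _ (hM.comap _) h2 with h | h
  · left
    rw [h3, h, eq_bot_iff]
    rintro _ ⟨x, hx, rfl⟩
    rw [Subgroup.mem_bot, ← MonoidHom.mem_ker, QuotientGroup.ker_mk']
    exact hx
  · right
    rw [h3, h]
    exact Subgroup.map_top_of_surjective _ hsurj

/-! ### Groups with finitely many conjugacy classes -/

/-- An infinite finitely presented group with finitely many conjugacy classes has an infinite simple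
finitely presented section with finitely many conjugacy classes. -/
theorem simple_section {G : Type u} [Group G] [Infinite G] [Group.IsFinitelyPresented G]
    (hG : Finite (ConjClasses G)) :
    ∃ (H : Subgroup G) (K : Subgroup H) (_ : K.Normal), H.Normal ∧ H.FiniteIndex ∧
      (∀ L : Subgroup G, L.FiniteIndex → H ≤ L) ∧ Infinite (H ⧸ K) ∧
      Group.IsFinitelyPresented (H ⧸ K) ∧ IsSimpleGroup (H ⧸ K) ∧ Finite (ConjClasses (H ⧸ K)) := by
  have hfin := finite_normal (G := G)
  obtain ⟨H, hH, hmin⟩ := (hfin.subset (fun N (hN : N ∈ {N : Subgroup G | N.Normal ∧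
    N.FiniteIndex}) => hN.1)).exists_minimal ⟨⊤, inferInstance, inferInstance⟩
  obtain ⟨hHn, hHf⟩ := hH
  have hleast : ∀ L : Subgroup G, L.FiniteIndex → H ≤ L := by
    intro L hL
    have h1 : (H ⊓ L.normalCore).FiniteIndex := inferInstance
    have h2 : (H ⊓ L.normalCore).Normal := inferInstance
    have h3 : H ≤ H ⊓ L.normalCore := hmin ⟨h2, h1⟩ inf_le_left
    exact h3.trans (inf_le_right.trans L.normalCore_le)
  have hHinf : Infinite H := by
    rw [← not_finite_iff_infinite]
    intro hf
    have h1 : H.index ≠ 0 := hHf.index_ne_zero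
    have h2 : Nat.card H * H.index = Nat.card G := H.card_mul_index
    have h3 : Nat.card H ≠ 0 := Nat.card_pos.ne'
    have h4 : Nat.card G = 0 := Nat.card_eq_zero_of_infinite
    rw [h4] at h2
    exact (mul_ne_zero h3 h1) h2
  have hno : ∀ L : Subgroup H, L.FiniteIndex → L = ⊤ := by
    intro L hL
    have h1 : (L.map H.subtype).FiniteIndex := ⟨by
      rw [Subgroup.index_map_subtype]
      exact mul_ne_zero hL.index_ne_zero hHf.index_ne_zero⟩
    have h2 := hleast _ h1
    rw [eq_top_iff]
    intro x _
    obtain ⟨y, hy, hyx⟩ := h2 x.2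
    have : y = x := Subtype.ext hyx
    exact this ▸ hy
  have hfp : Group.IsFinitelyPresented H := fp_finiteIndex H
  have hcc : Finite (ConjClasses H) := finite_conj_subgroup H
  have hfinH := finite_normal (G := H)
  obtain ⟨K, hK, hmax⟩ := (hfinH.subset (fun N (hN : N ∈ {N : Subgroup H | N.Normal ∧
    N ≠ ⊤}) => hN.1)).exists_maximal ⟨⊥, inferInstance, bot_ne_top⟩
  obtain ⟨hKn, hKt⟩ := hK
  refine ⟨H, K, hKn, hHn, hHf, hleast, ?_, ?_, ?_, finite_conj_quotient K⟩
  · rw [← not_finite_iff_infinite]
    intro hf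
    exact hKt (hno K Subgroup.finiteIndex_of_finite_quotient)
  · exact Group.IsFinitelyPresented.quotient K (fng_of_normal K hKn)
  · refine simple_quotient K hKt fun M hM hKM => ?_
    by_cases h : M = ⊤
    · exact Or.inr h
    · exact Or.inl (le_antisymm (hmax ⟨hM, h⟩ hKM) hKM)

/-! ### Groups whose proper subgroups are cyclic -/

theorem finite_mulAut {N : Type u} [Group N] [hN : IsCyclic N] : Finite (MulAut N) := by
  classical
  obtain ⟨z, hz⟩ := hN.exists_generator
  have hinj : Function.Injective (fun f : MulAut N => f z) := by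
    intro f g h
    ext x
    obtain ⟨a, rfl⟩ := hz x
    have h' : f z = g z := h
    change f (z ^ a) = g (z ^ a)
    rw [map_zpow, map_zpow, h']
  rcases finite_or_infinite N with hf | hf
  · exact Finite.of_injective _ hinj
  · have hzf : ¬ IsOfFinOrder z := by
      intro h
      have h1 : (Set.univ : Set N).Finite := by
        refine h.finite_zpowers.subset ?_
        intro g _
        exact hz g
      exact Set.infinite_univ h1
    have himg : ∀ f : MulAut N, f z ∈ ({z, z⁻¹} : Set N) := by
      intro f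
      obtain ⟨a, ha⟩ := hz (f z)
      obtain ⟨b, hb⟩ := hz (f.symm z)
      have ha' : z ^ a = f z := ha
      have hb' : z ^ b = f.symm z := hb
      have h1 : z ^ (a * b) = z ^ (1 : ℤ) := by
        rw [zpow_mul, ha', ← map_zpow, hb', zpow_one]
        exact f.apply_symm_apply z
      have h2 := R673.MG.zpow_inj_of hzf h1
      rcases Int.mul_eq_one_iff_eq_one_or_neg_one.1 h2 with h | h
      · left
        rw [← ha', h.1, zpow_one]
      · right
        rw [Set.mem_singleton_iff, ← ha', h.1, zpow_neg_one]
    exact Finite.of_injective (fun f : MulAut N => (⟨f z, himg f⟩ : ({z, z⁻¹} : Set N)))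
      fun f g h => hinj (congrArg Subtype.val h)

variable {G : Type u} [Group G]

/-- proper normal subgroups are central -/
theorem central_of_normal [Infinite G] (hnc : ¬ IsCyclic G)
    (h : ∀ H : Subgroup G, H ≠ ⊤ → IsCyclic H) (N : Subgroup G) (hN : N.Normal) (hNt : N ≠ ⊤) :
    N ≤ Subgroup.center G := by
  have h1 : IsCyclic N := h N hNt
  have h2 : Finite (MulAut N) := finite_mulAut
  let f : G →* MulAut N := MulAut.conjNormal
  have h3 : f.ker.FiniteIndex := inferInstance
  have h4 : f.ker = ⊤ := R673.MG.cyclic_no_fi hnc h _ h3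
  intro x hx
  rw [Subgroup.mem_center_iff]
  intro g
  have h5 : g ∈ f.ker := h4 ▸ Subgroup.mem_top g
  have h6 : f g ⟨x, hx⟩ = ⟨x, hx⟩ := by
    rw [MonoidHom.mem_ker.1 h5]
    rfl
  have h7 : g * x * g⁻¹ = x := congrArg Subtype.val h6
  rw [mul_inv_eq_iff_eq_mul] at h7
  exact h7

/-- an infinite finitely generated abelian group has a proper subgroup of finite index -/
theorem center_ne_top [Infinite G] [hfg : Group.FG G]
    (hno : ∀ H : Subgroup G, H.FiniteIndex → H = ⊤) : Subgroup.center G ≠ ⊤ := by
  intro hc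
  have hcomm : ∀ a b : G, a * b = b * a := by
    intro a b
    have : b ∈ Subgroup.center G := hc ▸ Subgroup.mem_top b
    exact (Subgroup.mem_center_iff.1 this a)
  let _ : CommGroup G := { (inferInstance : Group G) with mul_comm := hcomm }
  -- all elements are squares
  let f : G →* G := powMonoidHom 2
  have h1 : Finite (G ⧸ f.range) := by
    refine CommGroup.finite_of_fg_torsion _ ?_
    intro x
    obtain ⟨x, rfl⟩ := QuotientGroup.mk_surjective x
    rw [isOfFinOrder_iff_pow_eq_one]
    refine ⟨2, by norm_num, ?_⟩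
    rw [← QuotientGroup.mk_pow, QuotientGroup.eq_one_iff]
    exact ⟨x, rfl⟩
  have h2 : f.range = ⊤ := hno _ Subgroup.finiteIndex_of_finite_quotient
  have hfin : Module.Finite ℤ (Additive G) := by
    rw [Module.Finite.iff_addGroup_fg]
    exact GroupFG.iff_add_fg.1 hfg
  have h3 : (⊤ : Submodule ℤ (Additive G)) ≤ (Ideal.span {(2 : ℤ)}) • ⊤ := by
    intro x _
    have hx : Additive.toMul x ∈ f.range := h2 ▸ Subgroup.mem_top _
    obtain ⟨y, hy⟩ := hx
    have h4 : x = (2 : ℤ) • Additive.ofMul y := by
      rw [← ofMul_zpow]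
      apply Additive.toMul.injective
      rw [← hy]
      exact (zpow_ofNat y 2).symm
    rw [h4]
    exact Submodule.smul_mem_smul (Ideal.mem_span_singleton_self _) trivial
  obtain ⟨r, hr1, hr2⟩ := Submodule.exists_sub_one_mem_and_smul_eq_zero_of_fg_of_le_smul
    _ _ hfin.fg_top h3
  have hr0 : r ≠ 0 := by
    rintro rfl
    rw [Ideal.mem_span_singleton] at hr1
    omega
  have h5 : Finite G := by
    refine CommGroup.finite_of_fg_torsion G ?_
    intro x
    rw [isOfFinOrder_iff_zpow_eq_one]
    refine ⟨r, hr0, ?_⟩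
    have := hr2 (Additive.ofMul x) trivial
    rw [← ofMul_zpow] at this
    exact Additive.ofMul.injective this
  exact not_finite G

/-- The main statement for groups whose proper subgroups are cyclic. -/
theorem cyclic_main [Infinite G] [hfp : Group.IsFinitelyPresented G] (hnc : ¬ IsCyclic G)
    (h : ∀ H : Subgroup G, H ≠ ⊤ → IsCyclic H) :
    Subgroup.center G ≠ ⊤ ∧ (∀ N : Subgroup G, N.Normal → N ≠ ⊤ → N ≤ Subgroup.center G) ∧
      Infinite (G ⧸ Subgroup.center G) ∧ Group.IsFinitelyPresented (G ⧸ Subgroup.center G) ∧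
      IsSimpleGroup (G ⧸ Subgroup.center G) ∧ ¬ IsCyclic (G ⧸ Subgroup.center G) ∧
      ∀ H : Subgroup (G ⧸ Subgroup.center G), H ≠ ⊤ → IsCyclic H := by
  have hno := R673.MG.cyclic_no_fi hnc h
  have hfg : Group.FG G := by
    obtain ⟨n, φ, hφ, -⟩ := hfp.out
    exact Group.fg_of_surjective hφ
  have hc := center_ne_top hno
  have hcc : IsCyclic (Subgroup.center G) := h _ hc
  refine ⟨hc, fun N hN hNt => central_of_normal hnc h N hN hNt, ?_, ?_, ?_, ?_, ?_⟩
  · rw [← not_finite_iff_infinite]
    intro hf
    exact hc (hno _ Subgroup.finiteIndex_of_finite_quotient)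
  · have h1 : Group.FG (Subgroup.center G) := by
      obtain ⟨z, hz⟩ := hcc.exists_generator
      rw [Group.fg_iff]
      refine ⟨{z}, ?_, Set.finite_singleton z⟩
      rw [← Subgroup.zpowers_eq_closure, eq_top_iff]
      exact fun x _ => hz x
    exact Group.IsFinitelyPresented.quotient _
      (Subgroup.IsFinitelyNormallyGenerated.of_FG (Subgroup.center G))
  · refine simple_quotient _ hc fun M hM hle => ?_
    by_cases hMt : M = ⊤
    · exact Or.inr hMt
    · exact Or.inl (le_antisymm (central_of_normal hnc h M hM hMt) hle)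
  · intro hcy
    apply hc
    rw [eq_top_iff]
    intro x _
    rw [Subgroup.mem_center_iff]
    intro g
    exact commutative_of_cyclic_center_quotient (QuotientGroup.mk' (Subgroup.center G))
      (by rw [QuotientGroup.ker_mk']) g x
  · intro H hH
    have hsurj := QuotientGroup.mk'_surjective (Subgroup.center G)
    have h1 : H.comap (QuotientGroup.mk' (Subgroup.center G)) ≠ ⊤ := by
      intro e
      apply hH
      rw [← Subgroup.map_comap_eq_self_of_surjective hsurj H, e]
      exact Subgroup.map_top_of_surjective _ hsurj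
    have h2 := h _ h1
    exact isCyclic_of_surjective ((QuotientGroup.mk' (Subgroup.center G)).subgroupComap H)
      (MonoidHom.subgroupComap_surjective_of_surjective _ H hsurj)

/-- Infinite groups whose nontrivial proper subgroups have order `p` are simple. -/
theorem tarski_simple [Infinite G] (hnc : ¬ IsCyclic G) (hcyc : ∀ H : Subgroup G, H ≠ ⊤ → IsCyclic H)
    {p : ℕ} (hp : p.Prime) (h : ∀ H : Subgroup G, H ≠ ⊥ → H ≠ ⊤ → Nat.card H = p) :
    IsSimpleGroup G := by
  have hnt : Nontrivial G := inferInstance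
  refine { exists_pair_ne := hnt.exists_pair_ne, eq_bot_or_eq_top_of_normal := ?_ }
  intro N hN
  by_contra hcon
  push Not at hcon
  obtain ⟨hNb, hNt⟩ := hcon
  obtain ⟨g, hg⟩ : ∃ g, g ∉ N := by
    by_contra hall
    push Not at hall
    exact hNt (eq_top_iff.2 fun x _ => hall x)
  have hN1 := h N hNb hNt
  have hzt : Subgroup.zpowers g ≠ ⊤ := by
    intro e
    refine hnc ⟨g, fun x => ?_⟩
    have : x ∈ Subgroup.zpowers g := by
      rw [e]
      exact Subgroup.mem_top x
    exact this
  have hzb : Subgroup.zpowers g ≠ ⊥ := by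
    intro e
    rw [Subgroup.zpowers_eq_bot] at e
    exact hg (e ▸ N.one_mem)
  have hz1 := h _ hzb hzt
  have hfN : Finite N := Nat.finite_of_card_ne_zero (hN1 ▸ hp.ne_zero)
  have hfz : Finite (Subgroup.zpowers g) := Nat.finite_of_card_ne_zero (hz1 ▸ hp.ne_zero)
  have hK : ((Subgroup.zpowers g ⊔ N : Subgroup G) : Set G).Finite := by
    rw [Subgroup.mul_normal]
    exact Set.Finite.mul (Set.toFinite _) (Set.toFinite _)
  have hKt : Subgroup.zpowers g ⊔ N ≠ ⊤ := by
    intro e
    rw [e] at hK
    exact Set.infinite_univ hK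
  have hKb : Subgroup.zpowers g ⊔ N ≠ ⊥ := by
    intro e
    apply hNb
    rw [eq_bot_iff, ← e]
    exact le_sup_right
  have hK1 := h _ hKb hKt
  have hfK : Finite (Subgroup.zpowers g ⊔ N : Subgroup G) := hK
  have h2 : N = Subgroup.zpowers g ⊔ N :=
    Subgroup.eq_of_le_of_card_ge le_sup_right (by rw [hK1, hN1])
  apply hg
  rw [h2]
  exact (le_sup_left : Subgroup.zpowers g ≤ _) (Subgroup.mem_zpowers g)

end Pool.Agent.R387.FM
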